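import Pool.Agent.Q292.Sh.Basic

/-!
# The law of the random product and the entropy lower bound
-/

namespace Q292.Sh

open Finset

/-- the product `T_1 T_2 ⋯ T_l` when the coin of the `i`-th lazy transposition shows `ω i` -/
def prodOf {l n : ℕ} (t : Fin l → Op (Fin n)) (ω : Fin l → Bool) : Equiv.Perm (Fin n) :=
  (List.ofFn fun i => if ω i then Equiv.swap (t i).a (t i).b else 1).prod

/-- probability of the coin outcome `ω` -/
def weight {l n : ℕ} (t : Fin l → Op (Fin n)) (ω : Fin l → Bool) : ℝ :=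
  ∏ i, if ω i then (t i).p else 1 - (t i).p

open Classical in
/-- probability that the random permutation `T_1 T_2 ⋯ T_l` has the property `A` -/
noncomputable def Prob {l n : ℕ} (t : Fin l → Op (Fin n)) (A : Equiv.Perm (Fin n) → Prop) : ℝ :=
  ∑ ω : Fin l → Bool, if A (prodOf t ω) then weight t ω else 0

/-- strong `(2,n)`-shuffle -/
def StrongShuffle2 {l n : ℕ} (t : Fin l → Op (Fin n)) : Prop :=
  (∀ i, (t i).Ok) ∧ ∀ x₁ x₂ y₁ y₂ : Fin n, x₁ ≠ x₂ → y₁ ≠ y₂ →
    Prob t (fun σ => σ x₁ = y₁ ∧ σ x₂ = y₂) = 1 / ((n : ℝ) * (n - 1))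

lemma sum_bool_cons {l : ℕ} (F : (Fin (l + 1) → Bool) → ℝ) :
    ∑ ω, F ω = ∑ ω : Fin l → Bool, (F (Fin.cons false ω) + F (Fin.cons true ω)) := by
  rw [← (Fin.consEquiv (fun _ : Fin (l + 1) => Bool)).sum_comp F, Fintype.sum_prod_type,
    Fintype.sum_bool, ← sum_add_distrib]
  refine sum_congr rfl fun ω _ => ?_
  simp only [Fin.consEquiv, Equiv.coe_fn_mk]
  exact add_comm _ _

lemma prodOf_cons {l n : ℕ} (t : Fin (l + 1) → Op (Fin n)) (b : Bool) (ω : Fin l → Bool) :
    prodOf t (Fin.cons b ω) = (if b then Equiv.swap (t 0).a (t 0).b else 1) *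
      prodOf (fun i => t i.succ) ω := by
  simp [prodOf, List.ofFn_succ]

lemma weight_cons {l n : ℕ} (t : Fin (l + 1) → Op (Fin n)) (b : Bool) (ω : Fin l → Bool) :
    weight t (Fin.cons b ω) = (if b then (t 0).p else 1 - (t 0).p) *
      weight (fun i => t i.succ) ω := by
  simp [weight, Fin.prod_univ_succ]

lemma E2_law {n : ℕ} : ∀ {l : ℕ} (t : Fin l → Op (Fin n)) (f : Fin n → Fin n → ℝ) (x y : Fin n),
    E2 (List.ofFn t) f x y
      = ∑ ω : Fin l → Bool, weight t ω * f ((prodOf t ω)⁻¹ x) ((prodOf t ω)⁻¹ y) := by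
  intro l
  induction l with
  | zero =>
    intro t f x y
    simp [weight, prodOf]
  | succ l ih =>
    intro t f x y
    rw [List.ofFn_succ, E2_cons, ih, ih, sum_bool_cons, sum_add_distrib, mul_sum, mul_sum]
    congr 1
    · refine sum_congr rfl fun ω _ => ?_
      rw [prodOf_cons, weight_cons]
      simp [mul_assoc]
    · refine sum_congr rfl fun ω _ => ?_
      rw [prodOf_cons, weight_cons]
      simp [mul_assoc, mul_inv_rev, Equiv.Perm.mul_apply]

lemma E1_law {n l : ℕ} (t : Fin l → Op (Fin n)) (g : Fin n → ℝ) (x : Fin n) :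
    E1 (List.ofFn t) g x = ∑ ω : Fin l → Bool, weight t ω * g ((prodOf t ω)⁻¹ x) := by
  rw [← E2_fst (List.ofFn t) g x x, E2_law]

lemma prob_eq_E2 {n l : ℕ} (t : Fin l → Op (Fin n)) (x₁ x₂ y₁ y₂ : Fin n) :
    Prob t (fun σ => σ x₁ = y₁ ∧ σ x₂ = y₂)
      = E2 (List.ofFn t) (fun u v => if u = x₁ ∧ v = x₂ then 1 else 0) y₁ y₂ := by
  classical
  rw [E2_law]
  unfold Prob
  refine sum_congr rfl fun ω _ => ?_
  have h : (prodOf t ω x₁ = y₁ ∧ prodOf t ω x₂ = y₂) ↔
      ((prodOf t ω)⁻¹ y₁ = x₁ ∧ (prodOf t ω)⁻¹ y₂ = x₂) := by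
    constructor
    · rintro ⟨rfl, rfl⟩; simp
    · rintro ⟨h1, h2⟩
      rw [← h1, ← h2]; simp
  by_cases hc : (prodOf t ω)⁻¹ y₁ = x₁ ∧ (prodOf t ω)⁻¹ y₂ = x₂
  · rw [if_pos (h.2 hc), if_pos hc, mul_one]
  · rw [if_neg (fun h' => hc (h.1 h')), if_neg hc, mul_zero]

lemma avg2_ind {n : ℕ} {x₁ x₂ : Fin n} (hx : x₁ ≠ x₂) :
    avg2 (fun u v : Fin n => if u = x₁ ∧ v = x₂ then (1 : ℝ) else 0)
      = 1 / ((n : ℝ) * (n - 1)) := by
  have h : ∑ x, rowSum (fun u v : Fin n => if u = x₁ ∧ v = x₂ then (1 : ℝ) else 0) x = 1 := by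
    rw [Finset.sum_eq_single x₁]
    · unfold rowSum
      rw [Finset.sum_eq_single x₂]
      · simp
      · intro b _ hb
        simp [hb]
      · intro h
        exact absurd (mem_erase.2 ⟨hx.symm, mem_univ _⟩) h
    · intro b _ hb
      unfold rowSum
      simp [hb]
    · intro h
      exact absurd (mem_univ _) h
  rw [avg2, h, Fintype.card_fin]

theorem strong2_of_uni2 {n : ℕ} (hn : 2 ≤ n) (ℓ : List (Op (Fin n))) (hok : Ok ℓ) (h : Uni2 ℓ) :
    StrongShuffle2 (fun i : Fin ℓ.length => ℓ.get i) := by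
  have _ := hn
  refine ⟨fun i => hok _ (List.get_mem ℓ i), ?_⟩
  intro x₁ x₂ y₁ y₂ hx hy
  rw [prob_eq_E2, List.ofFn_get, h _ _ _ hy, avg2_ind hx]

/-! ### Entropy -/

lemma negMulLog_concave_pair {u v p : ℝ} (hu : 0 ≤ u) (hv : 0 ≤ v) (hp0 : 0 ≤ p) (hp1 : p ≤ 1) :
    Real.negMulLog ((1 - p) * u + p * v) + Real.negMulLog ((1 - p) * v + p * u)
      ≤ Real.negMulLog u + Real.negMulLog v + (u + v) * Real.log 2 := by
  set a := (1 - p) * u + p * v with ha
  set b := (1 - p) * v + p * u with hb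
  have hp' : 0 ≤ 1 - p := by linarith
  have ha0 : 0 ≤ a := by positivity
  have hb0 : 0 ≤ b := by positivity
  have hab : a + b = u + v := by rw [ha, hb]; ring
  have h1 : Real.negMulLog a + Real.negMulLog b ≤ 2 * Real.negMulLog ((u + v) / 2) := by
    have hc := Real.concaveOn_negMulLog.2 (Set.mem_Ici.2 ha0) (Set.mem_Ici.2 hb0)
      (by norm_num : (0 : ℝ) ≤ 1 / 2) (by norm_num : (0 : ℝ) ≤ 1 / 2) (by norm_num)
    simp only [smul_eq_mul] at hc
    have h2 : 1 / 2 * a + 1 / 2 * b = (u + v) / 2 := by rw [← hab]; ring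
    rw [h2] at hc
    linarith
  have h2 : 2 * Real.negMulLog ((u + v) / 2) = Real.negMulLog (u + v) + (u + v) * Real.log 2 := by
    rcases eq_or_lt_of_le (add_nonneg hu hv) with h | h
    · rw [← h]; simp
    · unfold Real.negMulLog
      rw [Real.log_div h.ne' (by norm_num)]
      ring
  have h3 : Real.negMulLog (u + v) ≤ Real.negMulLog u + Real.negMulLog v := by
    rcases eq_or_lt_of_le hu with h | h
    · rw [← h]; simp
    rcases eq_or_lt_of_le hv with h' | h'
    · rw [← h']; simp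
    unfold Real.negMulLog
    have h4 : Real.log u ≤ Real.log (u + v) := Real.log_le_log h (by linarith)
    have h5 : Real.log v ≤ Real.log (u + v) := Real.log_le_log h' (by linarith)
    nlinarith
  linarith

section
variable {α : Type*} [DecidableEq α]

/-- indicator of a point -/
def ind (y : α) : α → ℝ := fun u => if u = y then 1 else 0

lemma E1_ind_nonneg {ℓ : List (Op α)} (hok : Ok ℓ) (y x : α) : 0 ≤ E1 ℓ (ind y) x := by
  induction ℓ generalizing x with
  | nil => rw [E1_nil, ind]; split_ifs <;> norm_num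
  | cons o ℓ ih =>
    have h1 := hok o (by simp)
    have ih' := ih (fun o' ho' => hok o' (List.mem_cons_of_mem _ ho'))
    rw [E1_cons]
    have h2 : 0 ≤ 1 - o.p := by linarith [h1.2.2]
    exact add_nonneg (mul_nonneg h2 (ih' _)) (mul_nonneg h1.2.1 (ih' _))

variable [Fintype α]

lemma sum_E1_ind (ℓ : List (Op α)) (x : α) : ∑ y, E1 ℓ (ind y) x = 1 := by
  induction ℓ generalizing x with
  | nil => simp [ind]
  | cons o ℓ ih =>
    simp only [E1_cons, sum_add_distrib, ← mul_sum, ih]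
    ring

/-- entropy of the one particle laws, summed over the starting points -/
noncomputable def Ent (ℓ : List (Op α)) : ℝ :=
  ∑ x, ∑ y, Real.negMulLog (E1 ℓ (ind y) x)

lemma Ent_nil : Ent ([] : List (Op α)) = 0 := by
  unfold Ent
  refine sum_eq_zero fun x _ => sum_eq_zero fun y _ => ?_
  rw [E1_nil, ind]
  split_ifs <;> simp

lemma Ent_cons {o : Op α} {ℓ : List (Op α)} (hok : Ok (o :: ℓ)) :
    Ent (o :: ℓ) ≤ Ent ℓ + 2 * Real.log 2 := by
  have h1 := hok o (by simp)
  have hok' : Ok ℓ := fun o' ho' => hok o' (List.mem_cons_of_mem _ ho')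
  obtain ⟨hab, hp0, hp1⟩ := h1
  have split : ∀ G : α → ℝ, ∑ x, G x = G o.a + (G o.b + ∑ x ∈ (univ.erase o.a).erase o.b, G x) := by
    intro G
    rw [← add_sum_erase univ G (mem_univ o.a),
      ← add_sum_erase (univ.erase o.a) G (mem_erase.2 ⟨hab.symm, mem_univ _⟩)]
  unfold Ent
  rw [split, split (fun x => ∑ y, Real.negMulLog (E1 ℓ (ind y) x))]
  have h2 : ∑ x ∈ (univ.erase o.a).erase o.b, ∑ y, Real.negMulLog (E1 (o :: ℓ) (ind y) x)
      = ∑ x ∈ (univ.erase o.a).erase o.b, ∑ y, Real.negMulLog (E1 ℓ (ind y) x) := by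
    refine sum_congr rfl fun x hx => ?_
    simp only [mem_erase, mem_univ, and_true, ne_eq] at hx
    refine sum_congr rfl fun y _ => ?_
    rw [E1_cons, Equiv.swap_apply_of_ne_of_ne hx.2 hx.1]
    congr 1; ring
  rw [h2]
  have h3 : (∑ y, Real.negMulLog (E1 (o :: ℓ) (ind y) o.a))
      + (∑ y, Real.negMulLog (E1 (o :: ℓ) (ind y) o.b))
      ≤ (∑ y, Real.negMulLog (E1 ℓ (ind y) o.a)) + (∑ y, Real.negMulLog (E1 ℓ (ind y) o.b))
        + 2 * Real.log 2 := by
    have h4 : (2 : ℝ) * Real.log 2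
        = ∑ y, (E1 ℓ (ind y) o.a + E1 ℓ (ind y) o.b) * Real.log 2 := by
      rw [← sum_mul, sum_add_distrib, sum_E1_ind, sum_E1_ind]; norm_num
    rw [h4, ← sum_add_distrib, ← sum_add_distrib, ← sum_add_distrib]
    refine sum_le_sum fun y _ => ?_
    rw [E1_cons, E1_cons, Equiv.swap_apply_left, Equiv.swap_apply_right]
    exact negMulLog_concave_pair (E1_ind_nonneg hok' y _) (E1_ind_nonneg hok' y _) hp0 hp1
  linarith

lemma Ent_le {ℓ : List (Op α)} (hok : Ok ℓ) : Ent ℓ ≤ 2 * Real.log 2 * ℓ.length := by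
  induction ℓ with
  | nil => rw [Ent_nil]; simp
  | cons o ℓ ih =>
    have h1 := Ent_cons hok
    have h2 := ih (fun o' ho' => hok o' (List.mem_cons_of_mem _ ho'))
    rw [List.length_cons, Nat.cast_succ]
    linarith

end

/-- the one particle law of a strong `(2,n)`-shuffle is uniform -/
lemma StrongShuffle2.uni1 {l n : ℕ} (hn : 2 ≤ n) {t : Fin l → Op (Fin n)}
    (h : StrongShuffle2 t) (x y : Fin n) : E1 (List.ofFn t) (ind y) x = 1 / (n : ℝ) := by
  have hn1 : (0 : ℝ) < (n : ℝ) := by exact_mod_cast (by omega : 0 < n)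
  have hn2 : (0 : ℝ) < (n : ℝ) - 1 := by
    have : (2 : ℝ) ≤ (n : ℝ) := by exact_mod_cast hn
    linarith
  obtain ⟨x', hx'⟩ : ∃ x' : Fin n, x' ≠ x := by
    have : Nontrivial (Fin n) := Fin.nontrivial_iff_two_le.2 hn
    exact exists_ne x
  have h1 : E1 (List.ofFn t) (ind y) x
      = ∑ y' ∈ univ.erase y, Prob t (fun σ => σ y = x ∧ σ y' = x') := by
    rw [E1_law]
    have h2 : ∀ ω : Fin l → Bool, weight t ω * ind y ((prodOf t ω)⁻¹ x)
        = ∑ y' ∈ univ.erase y,
          weight t ω * (if (prodOf t ω)⁻¹ x = y ∧ (prodOf t ω)⁻¹ x' = y' then 1 else 0) := by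
      intro ω
      rw [← mul_sum]
      congr 1
      unfold ind
      by_cases hc : (prodOf t ω)⁻¹ x = y
      · rw [if_pos hc, Finset.sum_eq_single ((prodOf t ω)⁻¹ x')]
        · simp [hc]
        · intro b _ hb
          rw [if_neg (fun h' => hb h'.2.symm)]
        · intro hmem
          exfalso
          apply hmem
          refine mem_erase.2 ⟨?_, mem_univ _⟩
          intro h'
          exact hx' ((prodOf t ω)⁻¹.injective (h'.trans hc.symm))
      · rw [if_neg hc]
        symm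
        refine sum_eq_zero fun b _ => ?_
        rw [if_neg (fun h' => hc h'.1)]
    rw [sum_congr rfl (fun ω _ => h2 ω), sum_comm]
    refine sum_congr rfl fun y' _ => ?_
    rw [prob_eq_E2, E2_law]
  rw [h1, sum_congr rfl (fun y' hy' => h.2 y y' x x' (mem_erase.1 hy').1.symm hx'.symm),
    sum_const, card_erase_of_mem (mem_univ _), card_univ, Fintype.card_fin, nsmul_eq_mul,
    Nat.cast_sub (by omega : 1 ≤ n)]
  field_simp
  simp

/-- entropy lower bound (each lazy transposition increases the sum over the starting points of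
the entropies of the one particle laws by at most `2 log 2`) -/
theorem lower_bound {l n : ℕ} (hn : 2 ≤ n) (t : Fin l → Op (Fin n)) (h : StrongShuffle2 t) :
    (n : ℝ) * Real.logb 2 n / 2 ≤ l := by
  have hn1 : (0 : ℝ) < (n : ℝ) := by exact_mod_cast (by omega : 0 < n)
  have hok : Ok (List.ofFn t) := by
    intro o ho
    obtain ⟨i, rfl⟩ := (List.mem_ofFn' t o).1 ho
    exact h.1 i
  have h1 := Ent_le hok
  have h2 : Ent (List.ofFn t) = (n : ℝ) * Real.log n := by
    unfold Ent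
    simp only [h.uni1 hn, sum_const, card_univ, Fintype.card_fin, nsmul_eq_mul]
    unfold Real.negMulLog
    rw [one_div, Real.log_inv]
    field_simp
  rw [h2, List.length_ofFn] at h1
  have hl2 : 0 < Real.log 2 := Real.log_pos (by norm_num)
  rw [Real.logb]
  rw [div_le_iff₀ (by norm_num : (0 : ℝ) < 2), ← mul_div_assoc, div_le_iff₀ hl2]
  linarith

end Q292.Sh
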